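import Pool.Agent.E8helper49.PC.Stm

set_option autoImplicit false

/-!
# The primes above three
-/

namespace Pool.Agent.E8helper6.PC

open NumberField Pool.Agent.E8helper49.PC

/-- the ideal generated by three is prime -/
theorem three_prime : (Ideal.span {(3 : ℤ)}).IsPrime := by
  rw [Ideal.span_singleton_prime (by norm_num)]
  exact Int.prime_three

theorem three_max : (Ideal.span {(3 : ℤ)}).IsMaximal :=
  Ideal.IsPrime.isMaximal three_prime (by simp)

theorem mem_over {F : Type} [Field F] [NumberField F] (P : Ideal (𝓞 F)) :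
    P ∈ (Ideal.span {(3 : ℤ)}).primesOver (𝓞 F) ↔ P.IsPrime ∧ (3 : 𝓞 F) ∈ P := by
  constructor
  · rintro ⟨h1, h2⟩
    refine ⟨h1, ?_⟩
    have h3 : (3 : ℤ) ∈ P.under ℤ := by
      rw [← h2.over]
      exact Ideal.mem_span_singleton_self _
    rw [Ideal.under_def, Ideal.mem_comap] at h3
    simpa using h3
  · rintro ⟨h1, h2⟩
    refine ⟨h1, ⟨?_⟩⟩
    refine three_max.eq_of_le (Ideal.comap_ne_top _ h1.ne_top) ?_
    rw [Ideal.span_singleton_le_iff_mem, Ideal.mem_comap]
    simpa using h2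

theorem sum_ef (F : Type) [Field F] [NumberField F]
    [Fintype ((Ideal.span {(3 : ℤ)}).primesOver (𝓞 F))] :
    ∑ q : (Ideal.span {(3 : ℤ)}).primesOver (𝓞 F), q.1.ramificationIdx ℤ * q.1.inertiaDeg ℤ =
      Module.finrank ℚ F := by
  have := three_prime
  rw [Ideal.sum_ramification_inertia_eq_finrank, RingOfIntegers.rank]

theorem fin_over (F : Type) [Field F] [NumberField F] :
    Finite ((Ideal.span {(3 : ℤ)}).primesOver (𝓞 F)) := by
  have := three_max
  infer_instance

theorem t_THR3 : S_DEG → S_THR1 → S_THR2 → S_THREE := by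
  intro hD h1 h2 M Ω _ _ hM hC F _ _ hF
  classical
  have hfin := fin_over F
  let _ : Fintype ((Ideal.span {(3 : ℤ)}).primesOver (𝓞 F)) := Fintype.ofFinite _
  have hsum := sum_ef F
  have he : ∀ q : (Ideal.span {(3 : ℤ)}).primesOver (𝓞 F),
      q.1.ramificationIdx ℤ * q.1.inertiaDeg ℤ =
        2 * (if Even (q.1.ramificationIdx ℤ) then 1 else 0) +
          (if q.1.ramificationIdx ℤ = 1 then 1 else 0) := by
    intro q
    obtain ⟨a1, a2⟩ := (mem_over q.1).1 q.2
    obtain ⟨b1, b2, -⟩ := h1 M Ω hM hC F hF q.1 a1 a2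
    rw [b1]
    rcases b2 with b2 | b2
    · rw [b2]; decide
    · rw [b2]; decide
  rw [Finset.sum_congr rfl fun q _ => he q, Finset.sum_add_distrib, ← Finset.mul_sum,
    ← Finset.card_filter, ← Finset.card_filter] at hsum
  have hnB : nB F = (Finset.univ.filter fun q : (Ideal.span {(3 : ℤ)}).primesOver (𝓞 F) =>
      Even (q.1.ramificationIdx ℤ)).card := by
    unfold nB
    rw [← Fintype.card_subtype, ← Nat.card_eq_fintype_card]
    refine Nat.card_congr
      { toFun := fun P => ⟨⟨P.1, (mem_over P.1).2 ⟨P.2.1, P.2.2.1⟩⟩, P.2.2.2⟩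
        invFun := fun q => ⟨q.1.1, ((mem_over q.1.1).1 q.1.2).1, ((mem_over q.1.1).1 q.1.2).2, q.2⟩
        left_inv := fun _ => rfl
        right_inv := fun _ => rfl }
  rw [← hnB] at hsum
  constructor
  · intro hω
    have h0 : (Finset.univ.filter fun q : (Ideal.span {(3 : ℤ)}).primesOver (𝓞 F) =>
        q.1.ramificationIdx ℤ = 1) = ∅ := by
      rw [Finset.filter_eq_empty_iff]
      intro q _ hq
      obtain ⟨a1, a2⟩ := (mem_over q.1).1 q.2
      obtain ⟨-, -, b3⟩ := h1 M Ω hM hC F hF q.1 a1 a2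
      rw [b3 hω] at hq
      omega
    rw [h0, Finset.card_empty] at hsum
    omega
  · intro hω
    have hodd := hD M Ω hM hC F hF hω
    have hle : (Finset.univ.filter fun q : (Ideal.span {(3 : ℤ)}).primesOver (𝓞 F) =>
        q.1.ramificationIdx ℤ = 1).card ≤ 1 := by
      rw [Finset.card_le_one]
      intro q hq q' hq'
      rw [Finset.mem_filter] at hq hq'
      obtain ⟨a1, a2⟩ := (mem_over q.1).1 q.2
      obtain ⟨b1, b2⟩ := (mem_over q'.1).1 q'.2
      exact Subtype.ext (h2 M Ω hM hC F hF q.1 q'.1 a1 a2 b1 b2 hq.2 hq'.2)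
    rw [← hsum] at hodd
    rcases Nat.odd_iff.1 hodd with h3
    omega

end Pool.Agent.E8helper6.PC
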